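import Mathlib
import Pool.Agent.J6H37.Twistor.Smooth

/-!
# A covering domain of `ℂℙ³` whose four-dimensional complement is not a CR submanifold

Write points of `ℂℙ³` as `[u : w]` with `u, w ∈ ℂ²`. Let
`D = {[u : w] : det(u, conj w) ≠ 0}`, so that
`Λ = ℂℙ³ ∖ D = {[u : w] : u₁ conj(w₂) = u₂ conj(w₁)}`. The group `SL(2, ℂ)` acts by
`g • [u : w] = [g u : conj(g) w]`, and this action on `D` is proper with orbit space a circle.
Hence a torsion-free cocompact lattice `Γ` of `SL(2, ℂ)` acts freely and properly discontinuously
on `D` with compact quotient. The lattice used here is the principal congruence subgroup of level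
`3` of the norm one units of the order `ℤ[i]⟨I, J⟩`, `I² = i`, `J² = 2 + i`, `IJ = -JI`, of a
division quaternion algebra over `ℚ(i)`; its cocompactness is proved with Minkowski's theorem.

In each of the four affine charts `Λ` is the graph of a map `(x, y) ↦ conj(x) y` (up to naming
coordinates). So `Λ` is a closed connected embedded (even real-analytic) submanifold of real
dimension four: it has exactly one sheet at every point and is its own only component. Its CR
dimension is `2` at the points with `w = 0` (and those with `u = 0`) and `1` at the other ones.
So `Λ` is neither a complex hypersurface nor a CR submanifold.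
-/

namespace Pool.Agent.Results.MP_17cb1b_an.CRDimensionJumps

open Matrix Pool.Agent.J6H37.Twistor

/-- There are a domain `D ⊂ ℂℙ³` and a group `Γ` of projective transformations acting freely and
properly discontinuously on `D` with compact quotient, such that the complement `Λ` of `D` is a
connected embedded `C^∞` submanifold of real dimension four (hence the only component of `Λ` is
`Λ` itself) whose CR dimension is `1` at some point and `2` at some other point. -/
theorem result : ∃ (D : Set CP3) (Γ : Subgroup (GL (Fin 4) ℂ)),
    CoversCompactThreefold D Γ ∧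
    IsSmoothRealFour Dᶜ ∧ IsConnected Dᶜ ∧
    (∃ p ∈ Dᶜ, HasCRDim Dᶜ p 1) ∧ (∃ q ∈ Dᶜ, HasCRDim Dᶜ q 2) :=
  ⟨Dom, Gam, ⟨isOpen_Dom, conn_Dom, maps_Dom, free_Dom, pd_Dom, cocompact_Dom⟩,
    smooth_compl, conn_compl, cr_one, cr_two⟩

end Pool.Agent.Results.MP_17cb1b_an.CRDimensionJumps
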